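import Pool.Agent.V1157.FG.Chow

/-!
# Finite groups acting on the kernels of Abel-Jacobi maps

Fix a number field `k`, a dimension `n` and a codimension `r`. For a smooth projective variety `X`
over `k` of dimension `n` let `N(X)` be the kernel of the Abel-Jacobi map on the homologically
trivial cycles of codimension `r`, modulo torsion. The following are equivalent:

1. `N(X) = 0` for all `X` (the conjecture of Beilinson and Bloch in dimension `n` and codimension
   `r`);
2. for some finite group `G` and some non-zero `f ∈ ℚ[G]` the dimension of `f N(X)` is bounded, by a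
   bound valid for all actions of `G` on varieties `X` of dimension `n`;
3. every finite group acting on a variety `X` of dimension `n` acts on `N(X)` through an abelian
   quotient;
4. the automorphisms in finite groups acting on varieties of dimension `n` satisfy, on the spaces
   `N(X)`, some non-zero multilinear polynomial identity.

Proof of 2 ⇒ 1: let `z ∈ N(S)` and let `V` be a complete intersection of dimension `n`, stable
under `G`, in the power `S^(G × {0, …, D})`. Put `z_m = (p 1 m)^* z`. Then `g_* z_m = (p g m)^* z`,
and `(p h l)_* (p g m)^* z` is zero if `(g, m) ≠ (h, l)` and a non-zero multiple of `z` otherwise.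
So `∑ c_m f z_m = 0` implies `c_m f(g) z = 0` for all `g` and `m`. For 4 ⇒ 2 one needs elements of
a finite group whose products, in all orders, are different: extend the maps
`w ↦ i w` (words `w` without repetition and without the letter `i`) to permutations.
-/

open CategoryTheory AlgebraicGeometry

universe u v w

namespace Pool.Agent.Results.MP_a1cc03_ag.FiniteGroupActions

open Pool.Agent.H914 Pool.Agent.H914.VarClass Pool.Agent.H914.VarClass.Obj Pool.Agent.W492.BB
  Pool.Agent.TH133 Pool.Agent.Y148.BB Pool.Agent.V1157.FG

theorem result {k : Type u} [Field k] {𝒱 : VarClass k} {C : TheoryData.{u, v, 0} 𝒱 ℚ}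
    [IsChowProj C] {K : Type w} [Field K] (H : WeilTheoryData.{u, v, w} C K) [IsWeilProj H]
    (N : ∀ X : 𝒱.Obj, ℕ → Submodule ℚ (C.A X)) (hN : IsAbelJacobiKernel H N) (n r : ℕ)
    (hP : ∀ (G : Type) [Group G] [Finite G] (M : ℕ) (S : 𝒱.Obj), S.dim = n →
      HasEquivariantPower C n G M S) :
    List.TFAE [AbelJacobiInjective N n r,
      ∃ (G : Type) (_ : Group G) (_ : Fintype G) (f : G → ℚ) (D : ℕ), f ≠ 0 ∧
        RankAtMost N n r f D,
      ActAbelian N n r,
      ∃ (d : ℕ) (c : Equiv.Perm (Fin d) → ℚ), c ≠ 0 ∧ ActIdentity N n r d c] :=
  main hN hP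

end Pool.Agent.Results.MP_a1cc03_ag.FiniteGroupActions
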