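import Pool.Agent.V1126.BN.Sum

/-!
# Kernels of Abel-Jacobi maps over number fields and correspondences of square zero
-/

open CategoryTheory AlgebraicGeometry

universe u v w

namespace Pool.Agent.Results.MP_a1cc03_ag.SquareZeroPairs

open Pool.Agent.H914 Pool.Agent.H914.VarClass Pool.Agent.H914.VarClass.Obj Pool.Agent.W492.BB
  Pool.Agent.TH133 Pool.Agent.V1157.KF Pool.Agent.V1157.AK Pool.Agent.V1126.BN

/-- Fix a number field, the dimension `n` and the codimension `m`. Let `N(X)` be the kernel of the
Abel-Jacobi map on the homologically trivial cycles (with rational coefficients) of codimension `m`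
on the variety `X` of dimension `n`. A square zero pair on `X` consists of two self-correspondences
`E_0, E_1` of degree zero of `X` whose squares are zero on `N(X)`. The following are equivalent:
1. `N(X) = 0` for all varieties `X` of dimension `n`;
2. for all square zero pairs the unipotent bijections `1 + E_0` and `1 + E_1` of `N(X)` satisfy a
   nontrivial relation (depending on `X`, `E_0` and `E_1`);
3. for all square zero pairs `E_0 ∘ E_1` is locally nilpotent on `N(X)`;
4. for all square zero pairs `E_0 + E_1` is locally nilpotent on `N(X)`;
5. for all square zero pairs `E_0 ∘ E_1` has no nonzero rational eigenvalue on `N(X)`. -/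
theorem result {k : Type u} [Field k] {𝒱 : VarClass k} {C : TheoryData.{u, v, 0} 𝒱 ℚ}
    [IsChowProj C] {K : Type w} [Field K] {H : WeilTheoryData.{u, v, w} C K} [IsWeilProj H]
    (n m : ℕ) (h : AbelJacobi.{u, v, w} H n m)
    (hP : ∀ (S : 𝒱.Obj) (N : ℕ), S.dim = n → HasPower C n N S) :
    List.TFAE [AllInjective h, NoFreePairs h, ProductsNil h, SumsNil h, NoEigenvectors h] :=
  aj_sums h hP

end Pool.Agent.Results.MP_a1cc03_ag.SquareZeroPairs
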